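import Pool.Agent.Helper35.WC.Rows
import Pool.Agent.Helper35.TD.Final2
import Pool.Agent.Helper75.WC.RowData

/-! Project WC. The cyclic covers in the list. -/

set_option autoImplicit false

namespace Pool.Agent.Helper35.WC

open IntermediateField Pool.Agent.Helper75.QC Pool.Agent.Helper35.TD Pool.Agent.Helper75.WC

variable {F Ω L : Type} [Field F] [Field Ω] [Algebra F Ω] [Algebra.IsAlgebraic F Ω]
    [IsAlgClosed Ω] [Field L] [CharZero L] [IsAlgClosed L] (T : GaloisTheory F Ω L)

omit [Algebra.IsAlgebraic F Ω] [CharZero L] [IsAlgClosed L] in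
/-- **The list with weights.** -/
theorem weighted {R M : Type} [Field R] [Field M] [Algebra Ω R]
    [Algebra Ω M] [Algebra R M] [IsScalarTower Ω R M] [FiniteDimensional R M] [IsGalois R M]
    (x y : R) (hR : adjoin Ω {x, y} = ⊤) (w : M) (hw : adjoin R {w} = ⊤)
    (hrow : IsWeighted Ω (Module.finrank R M) (algebraMap R M x) (algebraMap R M y) w) :
    NoTate T M ∨ RowData Ω R M := by
  obtain ⟨hwn, hsmall, hlarge⟩ := row_uni x y hR w hw rfl hrow
  obtain ⟨hn0, htop, hfin, hcast, hw0, hmem⟩ := cyc_data x y hR w hw rfl hwn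
  rcases Nat.lt_or_ge 2 (Module.finrank R M) with hn2 | hn2
  · right
    obtain ⟨α, β, hαβ, hα, hβ, hαβ', huni⟩ := hlarge hn2
    have hwr : w ^ Module.finrank R M ∈ (algebraMap R M).range := by
      have h1 : adjoin Ω {algebraMap R M x, algebraMap R M y} ≤
          (IsScalarTower.toAlgHom Ω R M).fieldRange := by
        rw [adjoin_le_iff]
        rintro s (rfl | rfl)
        · exact ⟨x, rfl⟩
        · exact ⟨y, rfl⟩
      obtain ⟨c, hc⟩ := h1 hwn
      exact ⟨c, hc⟩
    refine ⟨Module.finrank R M, α, β, x, y, w, hn0, hcast, hαβ, hα, hβ, hαβ', hR, hw, rfl,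
      hw0 (by omega), hwr, fun N _ _ g v s hv hs => huni N g v s ?_ ?_ hs⟩
    · rintro rfl
      exact hv isAlgebraic_zero
    · rintro rfl
      exact hv (isAlgebraic_algebraMap (1 : g.fieldRange))
  · left
    intro U _ γ _ t _
    exact T.uniruled 2 M (hsmall hn2) t

/-- **The table.** -/
theorem table {R M : Type} [Field R] [Field M] [Algebra Ω R]
    [Algebra Ω M] [Algebra R M] [IsScalarTower Ω R M] [FiniteDimensional R M] [IsGalois R M]
    (x y : R) (hR : adjoin Ω {x, y} = ⊤) (w : M) (hw : adjoin R {w} = ⊤)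
    (h : ∃ (a b c : ℕ) (f g h : MvPolynomial (Fin 2) Ω),
      (f.totalDegree ≤ 3 ∧ g.totalDegree ≤ 2 ∧ h = 1 ∧ Module.finrank R M ∣ 3 * a + 2 * b ∨
        f.totalDegree ≤ 2 ∧ g.totalDegree ≤ 2 ∧ h.totalDegree ≤ 2 ∧
          Module.finrank R M ∣ a + b + c) ∧
      w ^ Module.finrank R M = MvPolynomial.aeval ![algebraMap R M x, algebraMap R M y] f ^ a *
        MvPolynomial.aeval ![algebraMap R M x, algebraMap R M y] g ^ b *
        MvPolynomial.aeval ![algebraMap R M x, algebraMap R M y] h ^ c) : NoTate T M := by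
  obtain ⟨a, b, c, f, g, k, H, hwn⟩ := h
  have hval : ∀ (F : IntermediateField Ω M) (P : MvPolynomial (Fin 2) Ω),
      algebraMap R M x ∈ F → algebraMap R M y ∈ F →
      MvPolynomial.aeval ![algebraMap R M x, algebraMap R M y] P ∈ F := fun F P h1 h2 =>
    mem_valr75 P _ _ F h1 h2
  have hmem : w ^ Module.finrank R M ∈ adjoin Ω {algebraMap R M x, algebraMap R M y} := by
    have m1 : algebraMap R M x ∈ adjoin Ω {algebraMap R M x, algebraMap R M y} :=
      subset_adjoin _ _ (by simp)
    have m2 : algebraMap R M y ∈ adjoin Ω {algebraMap R M x, algebraMap R M y} :=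
      subset_adjoin _ _ (by simp)
    rw [hwn]
    exact mul_mem (mul_mem (pow_mem (hval _ _ m1 m2) _) (pow_mem (hval _ _ m1 m2) _))
      (pow_mem (hval _ _ m1 m2) _)
  obtain ⟨hn0, htop, hfin, -⟩ := cyc_data x y hR w hw rfl hmem
  refine noTate_table T (K := M)
    ⟨Module.finrank R M, f, g, k, a, b, c, _, _, w, hn0, ?_, htop, hfin, hwn⟩
  rcases H with H | H
  · exact Or.inr (Or.inl H)
  · exact Or.inr (Or.inr (Or.inl H))

/-- the field `R` is finitely generated if `M = R` is -/
theorem fg_of_bot {Ω K : Type} [Field Ω] [Field K] [Algebra Ω K] (R : IntermediateField Ω K)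
    (h : (⊤ : IntermediateField Ω (⊥ : IntermediateField R K)).FG) :
    (⊤ : IntermediateField Ω R).FG := by
  obtain ⟨S, hS⟩ := h
  let i : (⊥ : IntermediateField R K) →ₐ[Ω] R :=
    { toFun := fun a => botEquiv R K a
      map_one' := map_one _
      map_mul' := map_mul _
      map_zero' := map_zero _
      map_add' := map_add _
      commutes' := fun c => (botEquiv R K).commutes (algebraMap Ω R c) }
  have h1 : adjoin Ω (i '' (S : Set _)) = ⊤ := by
    rw [← adjoin_map, hS, eq_top_iff]
    intro x _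
    obtain ⟨a, ha⟩ := (botEquiv R K).surjective x
    exact ⟨a, mem_top, ha⟩
  rw [← h1]
  exact fg_adjoin_of_finite (S.finite_toSet.image _)

theorem cyclic_bot {R K : Type} [Field R] [Field K] [Algebra R K] :
    IsCyclic ((⊥ : IntermediateField R K) ≃ₐ[R] (⊥ : IntermediateField R K)) := by
  have h1 : Subsingleton ((⊥ : IntermediateField R K) ≃ₐ[R] (⊥ : IntermediateField R K)) := by
    refine ⟨fun g h => AlgEquiv.ext fun a => ?_⟩
    obtain ⟨c, hc⟩ := mem_bot.1 a.2
    have h2 : a = algebraMap R (⊥ : IntermediateField R K) c := Subtype.ext hc.symm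
    rw [h2, g.commutes, h.commutes]
  infer_instance

end Pool.Agent.Helper35.WC
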