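import Pool.Agent.Helper35.WC.RowsM
import Pool.Agent.Helper35.WC.Listed
import Pool.Agent.Helper15.WC.RowM
import Pool.Agent.Helper75.WC.CurveM

/-! Project WC. The cyclic covers in the list, with `x`, `y`, `w` in `M`. -/

set_option autoImplicit false

namespace Pool.Agent.Helper35.WC

open IntermediateField Pool.Agent.Helper75.QC Pool.Agent.Helper35.TD Pool.Agent.Helper75.WC

variable {F Ω L : Type} [Field F] [Field Ω] [Algebra F Ω] [Algebra.IsAlgebraic F Ω]
    [IsAlgClosed Ω] [Field L] [CharZero L] [IsAlgClosed L] (T : GaloisTheory F Ω L)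

omit [Algebra.IsAlgebraic F Ω] [CharZero L] [IsAlgClosed L] in
/-- **The list with weights.** -/
theorem weightedM {R M : Type} [Field R] [Field M] [Algebra Ω R]
    [Algebra Ω M] [Algebra R M] [IsScalarTower Ω R M] [FiniteDimensional R M] [IsGalois R M]
    (x y w : M) (hR : ∀ r : R, algebraMap R M r ∈ (adjoin Ω {x, y} : IntermediateField Ω M))
    (hM : adjoin Ω {x, y, w} = ⊤)
    (hrow : IsWeighted Ω (Module.finrank (adjoin Ω {x, y} : IntermediateField Ω M) M) x y w) :
    NoTate T M ∨ RowDataM Ω R M := by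
  have hwn := Pool.Agent.Helper15.WC.weighted_mem hrow
  obtain ⟨hn0, hcast, hw0⟩ := Pool.Agent.Helper15.WC.cyc_dataM x y w hR hM rfl hwn
  obtain ⟨hsmall, hlarge⟩ := Pool.Agent.Helper15.WC.row_uniM x y w hM hcast hw0 hrow
  rcases Nat.lt_or_ge 2 (Module.finrank (adjoin Ω {x, y} : IntermediateField Ω M) M) with hn2 | hn2
  · right
    obtain ⟨α, β, hαβ, hα, hβ, hαβ', huni⟩ := hlarge hn2
    refine ⟨_, α, β, x, y, w, hn0, hcast, hαβ, hα, hβ, hαβ', hR, hM, rfl,
      hw0 (by omega), hwn, fun N _ _ g v s hv hs => huni N g v s ?_ ?_ hs⟩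
    · rintro rfl
      exact hv isAlgebraic_zero
    · rintro rfl
      exact hv (isAlgebraic_algebraMap (1 : g.fieldRange))
  · left
    intro U _ γ _ t _
    exact T.uniruled 2 M (hsmall hn2) t

/-- **The table.** -/
theorem tableM {R M : Type} [Field R] [Field M] [Algebra Ω R]
    [Algebra Ω M] [Algebra R M] [IsScalarTower Ω R M] [FiniteDimensional R M] [IsGalois R M]
    (x y w : M) (hR : ∀ r : R, algebraMap R M r ∈ (adjoin Ω {x, y} : IntermediateField Ω M))
    (hM : adjoin Ω {x, y, w} = ⊤) {n : ℕ}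
    (hn : Module.finrank (adjoin Ω {x, y} : IntermediateField Ω M) M = n)
    (h : ∃ (a b c : ℕ) (f g h : MvPolynomial (Fin 2) Ω),
      (f.totalDegree ≤ 3 ∧ g.totalDegree ≤ 2 ∧ h = 1 ∧ n ∣ 3 * a + 2 * b ∨
        f.totalDegree ≤ 2 ∧ g.totalDegree ≤ 2 ∧ h.totalDegree ≤ 2 ∧ n ∣ a + b + c) ∧
      w ^ n = MvPolynomial.aeval ![x, y] f ^ a *
        MvPolynomial.aeval ![x, y] g ^ b * MvPolynomial.aeval ![x, y] h ^ c) : NoTate T M := by
  obtain ⟨a, b, c, f, g, k, H, hwn⟩ := h
  have hmem : w ^ n ∈ (adjoin Ω {x, y} : IntermediateField Ω M) := by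
    have m1 : x ∈ (adjoin Ω {x, y} : IntermediateField Ω M) := subset_adjoin _ _ (by simp)
    have m2 : y ∈ (adjoin Ω {x, y} : IntermediateField Ω M) := subset_adjoin _ _ (by simp)
    rw [hwn]
    exact mul_mem (mul_mem (pow_mem (mem_valr75 f _ _ _ m1 m2) _)
      (pow_mem (mem_valr75 g _ _ _ m1 m2) _)) (pow_mem (mem_valr75 k _ _ _ m1 m2) _)
  obtain ⟨hn0, -, -⟩ := Pool.Agent.Helper15.WC.cyc_dataM x y w hR hM hn hmem
  refine noTate_table T (K := M) ⟨n, f, g, k, a, b, c, x, y, w, hn0, ?_, hM, hn, hwn⟩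
  rcases H with H | H
  · exact Or.inr (Or.inl H)
  · exact Or.inr (Or.inr (Or.inl H))

/-- **The whole list.** -/
theorem of_lstM {R M : Type} [Field R] [Field M] [Algebra Ω R]
    [Algebra Ω M] [Algebra R M] [IsScalarTower Ω R M] [FiniteDimensional R M] [IsGalois R M]
    (h : LstM Ω R M) : NoTate T M ∨ RowDataM Ω R M := by
  obtain ⟨x, y, w, hR, hM, h | h⟩ := h
  · exact weightedM T x y w hR hM h
  · exact Or.inl (tableM T x y w hR hM rfl h)

/-- the base field of the list is finitely generated if `M = R` is in the list -/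
theorem fg_of_botM {Ω K : Type} [Field Ω] [Field K] [Algebra Ω K] (R : IntermediateField Ω K)
    (x y w : (⊥ : IntermediateField R K)) (hM : adjoin Ω {x, y, w} = ⊤) :
    (⊤ : IntermediateField Ω R).FG := by
  refine fg_of_bot R ?_
  rw [← hM]
  exact fg_adjoin_of_finite (Set.toFinite _)

end Pool.Agent.Helper35.WC
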