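import Pool.Agent.Helper48.WC.Abel

/-! Project WC. Finite abelian extensions `K / R`: the form used in the result. -/

set_option autoImplicit false

namespace Pool.Agent.Helper35.WC

open IntermediateField Pool.Agent.Helper75.QC Pool.Agent.Helper35.TD

variable {F Ω L : Type} [Field F] [Field Ω] [Algebra F Ω] [Algebra.IsAlgebraic F Ω]
  [Field L] [CharZero L] [IsAlgClosed L] (T : GaloisTheory F Ω L)

theorem noTate_of_cyclic {K : Type} [Field K] [Algebra Ω K] (R : IntermediateField Ω K)
    [FiniteDimensional R K] [IsGalois R K] (hab : ∀ g h : K ≃ₐ[R] K, g * h = h * g)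
    (H : ∀ M : IntermediateField R K, IsCyclic (M ≃ₐ[R] M) →
      NoTate T M ∧ (⊤ : IntermediateField Ω M).FG) :
    NoTate T K ∧ (⊤ : IntermediateField Ω K).FG := by
  have hR : R.FG := by
    apply Pool.Agent.Helper48.WC.fg_of_fg_top
    have hbot : IsCyclic ((⊥ : IntermediateField R K) ≃ₐ[R] (⊥ : IntermediateField R K)) := by
      have h1 : Subsingleton ((⊥ : IntermediateField R K) ≃ₐ[R] (⊥ : IntermediateField R K)) := by
        refine ⟨fun g h => AlgEquiv.ext fun a => ?_⟩
        obtain ⟨c, hc⟩ := mem_bot.1 a.2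
        have h2 : a = algebraMap R (⊥ : IntermediateField R K) c := Subtype.ext hc.symm
        rw [h2, g.commutes, h.commutes]
      infer_instance
    obtain ⟨S, hS⟩ := (H ⊥ hbot).2
    let i : (⊥ : IntermediateField R K) →ₐ[Ω] R :=
      { toFun := fun a => botEquiv R K a
        map_one' := map_one _
        map_mul' := map_mul _
        map_zero' := map_zero _
        map_add' := map_add _
        commutes' := fun c => (botEquiv R K).commutes (algebraMap Ω R c) }
    have h1 : adjoin Ω (i '' (S : Set _)) = ⊤ := by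
      rw [← adjoin_map, hS, eq_top_iff]
      intro x _
      obtain ⟨a, ha⟩ := (botEquiv R K).surjective x
      exact ⟨a, mem_top, ha⟩
    rw [← h1]
    exact fg_adjoin_of_finite (S.finite_toSet.image _)
  refine ⟨Pool.Agent.Helper48.WC.noTate_abelian T R hR hab fun M hc => ?_, ?_⟩
  · let e : (M.restrictScalars Ω : IntermediateField Ω K) →ₐ[Ω] M :=
      { toFun := fun x => ⟨x.1, x.2⟩
        map_one' := rfl
        map_mul' := fun _ _ => rfl
        map_zero' := rfl
        map_add' := fun _ _ => rfl
        commutes' := fun _ => rfl }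
    refine NoTate.of_hom T (H M hc).1 (H M hc).2
      (Pool.Agent.Helper48.WC.fg_top_of_fg (Pool.Agent.Helper48.WC.fg_restrict R hR M)) e
      fun a => ?_
    exact isAlgebraic_algebraMap (⟨a, ⟨a.1, a.2⟩, rfl⟩ : e.fieldRange)
  · have h := Pool.Agent.Helper48.WC.fg_restrict R hR (⊤ : IntermediateField R K)
    rwa [restrictScalars_top] at h

end Pool.Agent.Helper35.WC
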