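import Pool.Agent.Helper35.WC.Range

/-! Project WC: the constants may be embedded by another automorphism, and the purely inseparable
extensions. -/

set_option autoImplicit false

namespace Pool.Agent.Helper35.WC

open IntermediateField Module Pool.Agent.Helper75.QC Pool.Agent.Helper35.TD Pool.Agent.Helper15.TD

section

variable {F Ω L : Type} [Field F] [Field Ω] [Algebra F Ω] [Field L] (T : GaloisTheory F Ω L)

/-- **Another embedding of the constants.** -/
theorem noTate_twist {K : Type} [Field K] [Algebra Ω K] (H : NoTate T K) (φ : Ω ≃+* Ω)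
    (hφ : ∀ (τ : Ω ≃ₐ[F] Ω) (a : Ω), τ (φ a) = φ (τ a)) :
    letI := twAlg (K := K) φ
    NoTate T (Tw K) := by
  let al : Algebra Ω (Tw K) := twAlg (K := K) φ
  intro U hU γ hγ t ht
  have hτφ : ∀ (τ : Ω ≃ₐ[F] Ω) (a : Ω), φ (τ (φ.symm a)) = τ a := by
    intro τ a
    rw [← hφ, φ.apply_symm_apply]
  have halg : ∀ a : Ω, algebraMap Ω (Tw K) a = algebraMap Ω K (φ a) := fun _ => rfl
  obtain ⟨e, he⟩ : ∃ e : Tw K →+* K, ∀ k, e k = k := ⟨RingHom.id K, fun _ => rfl⟩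
  obtain ⟨e', he'⟩ : ∃ e' : K →+* Tw K, ∀ k, e' k = k := ⟨RingHom.id K, fun _ => rfl⟩
  have hee : e'.comp e = RingHom.id (Tw K) := RingHom.ext fun k => (he' _).trans (he k)
  have hee' : e.comp e' = RingHom.id K := RingHom.ext fun k => (he _).trans (he' k)
  have hoe : IsOver φ e := fun a => (he _).trans (halg a)
  have hoe' : IsOver φ.symm e' := fun a => by
    rw [he', halg, φ.apply_symm_apply]
  obtain ⟨δ, hδ⟩ : ∃ δ : (Ω ≃ₐ[F] Ω) → (K →+* K), ∀ τ, δ τ = (e.comp (γ τ)).comp e' :=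
    ⟨_, fun _ => rfl⟩
  have hover : ∀ τ ∈ U, IsOver (τ : Ω ≃+* Ω) (δ τ) := by
    intro τ hτ a
    rw [hδ]
    show e (γ τ (e' (algebraMap Ω K a))) = algebraMap Ω K (τ a)
    have s1 : e' (algebraMap Ω K a) = algebraMap Ω (Tw K) (φ.symm a) := hoe' a
    have s2 : γ τ (algebraMap Ω (Tw K) (φ.symm a)) = algebraMap Ω (Tw K) (τ (φ.symm a)) :=
      hγ.1 τ hτ _
    have s3 : e (algebraMap Ω (Tw K) (τ (φ.symm a))) = algebraMap Ω K (φ (τ (φ.symm a))) := hoe _
    exact ((congrArg (fun k => e (γ τ k)) s1).trans ((congrArg e s2).trans s3)).trans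
      (congrArg _ (hτφ τ a))
  have hform : IsForm U δ := by
    refine ⟨hover, ?_⟩
    rw [eq_top_iff]
    rintro k -
    have h1 : ∀ k' : Tw K, k' ∈
        (adjoin Ω {a : Tw K | ∀ τ ∈ U, γ τ a = a} : IntermediateField Ω (Tw K)) := by
      intro k'
      rw [hγ.2]
      exact mem_top
    obtain ⟨A, hA⟩ : ∃ A : Set K, A = {a : Tw K | ∀ τ ∈ U, γ τ a = a} := ⟨_, rfl⟩
    have h2 : k ∈ adjoin Ω A := by
      refine (tw_mem φ A k).1 ?_
      rw [hA]
      exact h1 k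
    refine adjoin.mono Ω _ _ ?_ h2
    rw [hA]
    intro a ha τ hτ
    rw [hδ]
    have h3 : γ τ (a : Tw K) = a := ha τ hτ
    show e (γ τ (e' a)) = a
    rw [he' a]
    exact (congrArg e h3).trans (he a)
  have hcomp : ∀ τ, (δ τ).comp e = e.comp (γ τ) := by
    intro τ
    rw [hδ, RingHom.comp_assoc, hee, RingHom.comp_id]
  have h0 : T.act 2 e t = 0 := by
    refine H U hU δ hform _ fun τ hτ => ?_
    have h1 := LinearMap.congr_fun (T.act_comp 2 (τ : Ω ≃+* Ω) φ (δ τ) e (hover τ hτ) hoe) t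
    have h2 := LinearMap.congr_fun (T.act_comp 2 φ (τ : Ω ≃+* Ω) e (γ τ) hoe (hγ.1 τ hτ)) t
    rw [hcomp, h2, LinearMap.comp_apply, LinearMap.comp_apply, ht τ hτ, Units.smul_def,
      map_smul] at h1
    exact h1.symm
  have h4 := LinearMap.congr_fun (T.act_comp 2 φ.symm φ e' e hoe' hoe) t
  have h5 : T.act 2 (RingHom.id (Tw K)) t = t := by
    have h6 := T.act_map 2 (AlgHom.id Ω (Tw K))
    have h7 : T.act 2 (RingHom.id (Tw K)) = T.map 2 (AlgHom.id Ω (Tw K)) := h6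
    rw [h7, T.map_id]
    rfl
  rw [hee, h5, LinearMap.comp_apply, h0, map_zero] at h4
  exact h4

/-- **Purely inseparable extensions.** -/
theorem noTate_insep [Algebra.IsAlgebraic F Ω] {p : ℕ} [Fact p.Prime] [CharP Ω p]
    [PerfectRing Ω p] {K : Type} [Field K] [Algebra Ω K] (hK : (⊤ : IntermediateField Ω K).FG)
    (m : ℕ) (K1 : IntermediateField Ω K) (hK1 : (⊤ : IntermediateField Ω K1).FG)
    (h : ∀ k : K, k ^ p ^ m ∈ K1) (H : NoTate T K1) : NoTate T K := by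
  obtain ⟨φ, hφ⟩ : ∃ φ : Ω ≃+* Ω, ∀ a, φ a = a ^ p ^ m :=
    ⟨iterateFrobeniusEquiv Ω p m, fun a => by rw [iterateFrobeniusEquiv_def]⟩
  have hKp : CharP K p := charP_of_injective_algebraMap (algebraMap Ω K).injective p
  let al : Algebra Ω (Tw K1) := twAlg (K := K1) φ
  have H1 : NoTate T (Tw K1) := noTate_twist T H φ fun τ a => by rw [hφ, hφ, map_pow]
  have hq : 0 < p ^ m := pow_pos (Fact.out : p.Prime).pos _
  obtain ⟨ψ, hψ⟩ : ∃ ψ : K →ₐ[Ω] Tw K1, ∀ k : K, ψ k = (⟨k ^ p ^ m, h k⟩ : K1) :=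
    ⟨{ toFun := fun k => (⟨k ^ p ^ m, h k⟩ : K1)
       map_one' := Subtype.ext (one_pow _)
       map_mul' := fun a b => Subtype.ext (mul_pow a b _)
       map_zero' := Subtype.ext (zero_pow hq.ne')
       map_add' := fun a b => Subtype.ext (add_pow_char_pow a b p m)
       commutes' := fun a => by
         show (⟨algebraMap Ω K a ^ p ^ m, h _⟩ : K1) = algebraMap Ω K1 (φ a)
         apply Subtype.ext
         show algebraMap Ω K a ^ p ^ m = algebraMap Ω K (φ a)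
         rw [hφ, map_pow] }, fun k => rfl⟩
  have hfg : (⊤ : IntermediateField Ω (Tw K1)).FG := by
    obtain ⟨S, hS⟩ := hK1
    refine ⟨S, ?_⟩
    rw [eq_top_iff]
    rintro k -
    refine (tw_mem φ (S : Set K1) k).2 ?_
    rw [hS]
    exact mem_top
  refine NoTate.of_hom T H1 hfg hK ψ fun a => ?_
  refine IsAlgebraic.of_pow hq ?_
  obtain ⟨k, hk⟩ : ∃ k : K1, k = a := ⟨a, rfl⟩
  have h1 : a ^ p ^ m = ψ (k : K) := by
    rw [hψ, ← hk]
    exact Subtype.ext rfl
  rw [h1]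
  exact isAlgebraic_algebraMap (⟨ψ (k : K), ⟨(k : K), rfl⟩⟩ : ψ.fieldRange)

end

end Pool.Agent.Helper35.WC
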