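import Pool.Agent.Helper35.WC.Tame
import Pool.Agent.Helper35.WC.Twist

/-! Project WC: the surfaces `w ^ n * q(x, y) ^ 2 = f(x, y)`, every exponent `n`. -/

set_option autoImplicit false

namespace Pool.Agent.Helper35.WC

open IntermediateField Pool.Agent.Helper75.QC Pool.Agent.Helper75.TC Pool.Agent.Helper35.TD

section

variable {F Ω L : Type} [Field F] [Field Ω] [Algebra F Ω] [Algebra.IsAlgebraic F Ω]
    [IsAlgClosed Ω] [Field L] [CharZero L] [IsAlgClosed L] (T : GaloisTheory F Ω L)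

omit [IsAlgClosed Ω] [CharZero L] [IsAlgClosed L] in
theorem noTate_sub {K : Type} [Field K] [Algebra Ω K] (K1 : IntermediateField Ω K) (S1 : Set K1)
    (hS1 : S1.Finite) (S : Set K) (hS : S = K1.val '' S1) (H : NoTate T (adjoin Ω S)) :
    NoTate T (adjoin Ω S1) := by
  subst hS
  have h1 : (adjoin Ω S1).map K1.val = adjoin Ω (K1.val '' S1) := adjoin_map _ _ _
  have hfg : (⊤ : IntermediateField Ω (adjoin Ω (K1.val '' S1))).FG :=
    Pool.Agent.Helper75.WC.fg_sub (hS1.image _)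
  rw [← h1] at H hfg
  refine NoTate.of_hom T H hfg (Pool.Agent.Helper75.WC.fg_sub hS1)
    ((adjoin Ω S1).equivMap K1.val).toAlgHom fun a => ?_
  obtain ⟨b, hb⟩ := ((adjoin Ω S1).equivMap K1.val).surjective a
  rw [← hb]
  exact isAlgebraic_algebraMap (⟨_, b, rfl⟩ :
    (((adjoin Ω S1).equivMap K1.val).toAlgHom).fieldRange)

/-- the exponents prime to the characteristic -/
theorem noTate_tame {K : Type} [Field K] [Algebra Ω K] {n : ℕ} (hn : 0 < n) (hn' : (n : Ω) ≠ 0)
    (f q : MvPolynomial (Fin 2) Ω) (x y w : K)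
    (hK : adjoin Ω {x, y, w} = ⊤) (hdeg : Module.finrank (adjoin Ω {x, y}) K = n)
    (hq : val q x y ≠ 0) (hw : w ^ n * val q x y ^ 2 = val f x y)
    (huni : ∀ (N : Type) [Field N] [Algebra Ω N]
      (x y v s : N), val q x y ≠ 0 → v ≠ 0 → 1 - v ≠ 0 →
      v * (1 - v) * val q x y ^ 2 = s ^ n * val f x y →
      Uniruled Ω (adjoin Ω {x, y, v, s} : IntermediateField Ω N) 3)
    (hD : ∀ m : ℕ, n = 2 * m → NoTate T (adjoin Ω {x, y, w ^ m} : IntermediateField Ω K)) :
    NoTate T K := by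
  have hx : x ∈ adjoin Ω {x, y} := subset_adjoin _ _ (by simp)
  have hy : y ∈ adjoin Ω {x, y} := subset_adjoin _ _ (by simp)
  have hwF : w ^ n ∈ adjoin Ω {x, y} := by
    have h1 : w ^ n = val f x y * (val q x y ^ 2)⁻¹ := by
      rw [← hw]
      field_simp
    rw [h1]
    exact mul_mem (val_mem f _ hx hy) (inv_mem (pow_mem (val_mem q _ hx hy) _))
  by_cases hw0 : w = 0
  · intro U _ γ _ t _
    exact T.uniruled 2 K (uniruled_surface (n := n) x y w hK
      (by rw [hw0]; exact zero_mem _)) t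
  refine tame_double T hn hn' x y w hK hw0 hwF hdeg ?_ hD
  intro N _ _ g v s hv hs
  have hg : val q (g x) (g y) ≠ 0 := by
    rw [← map_val]
    exact (map_ne_zero g).2 hq
  have hv0 : v ≠ 0 := by
    rintro rfl
    exact hv isAlgebraic_zero
  have hv1 : 1 - v ≠ 0 := by
    intro h
    have h1 : v = algebraMap g.fieldRange N 1 := by
      rw [map_one]
      exact (sub_eq_zero.1 h).symm
    exact hv (h1 ▸ isAlgebraic_algebraMap (1 : g.fieldRange))
  refine huni N (g x) (g y) v s hg hv0 hv1 ?_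
  rw [pow_one, pow_one] at hs
  rw [hs, ← map_val, ← map_val, ← hw, map_mul, map_pow, map_pow]
  ring

/-- **All exponents.** -/
theorem noTate_gen {K : Type} [Field K] [Algebra Ω K] {n : ℕ} (hn : 0 < n)
    (f q : MvPolynomial (Fin 2) Ω) (x y w : K)
    (hK : adjoin Ω {x, y, w} = ⊤) (hdeg : Module.finrank (adjoin Ω {x, y}) K = n)
    (hq : val q x y ≠ 0) (hw : w ^ n * val q x y ^ 2 = val f x y)
    (huni : ∀ n' : ℕ, n' ∣ n → 0 < n' → ((2 : Ω) ≠ 0 → Even n → Even n') →
      ∀ (N : Type) [Field N] [Algebra Ω N] (x y v s : N), val q x y ≠ 0 → v ≠ 0 → 1 - v ≠ 0 →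
      v * (1 - v) * val q x y ^ 2 = s ^ n' * val f x y →
      Uniruled Ω (adjoin Ω {x, y, v, s} : IntermediateField Ω N) 3)
    (hD : ∀ m : ℕ, n = 2 * m → (2 : Ω) ≠ 0 →
      NoTate T (adjoin Ω {x, y, w ^ m} : IntermediateField Ω K)) : NoTate T K := by
  classical
  have hx0 : x ∈ adjoin Ω {x, y} := subset_adjoin _ _ (by simp)
  have hy0 : y ∈ adjoin Ω {x, y} := subset_adjoin _ _ (by simp)
  have hwF : w ^ n ∈ adjoin Ω {x, y} := by
    have h1 : w ^ n = val f x y * (val q x y ^ 2)⁻¹ := by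
      rw [← hw]
      field_simp
    rw [h1]
    exact mul_mem (val_mem f _ hx0 hy0) (inv_mem (pow_mem (val_mem q _ hx0 hy0) _))
  have hfg : (⊤ : IntermediateField Ω K).FG := by
    rw [← hK]
    exact fg_adjoin_of_finite (Set.toFinite _)
  obtain ⟨p, hpc⟩ := CharP.exists Ω
  rcases CharP.char_is_prime_or_zero Ω p with hp | hp
  swap
  · subst hp
    have : CharZero Ω := CharP.charP_to_charZero Ω
    have hcast : ∀ k : ℕ, 0 < k → (k : Ω) ≠ 0 := fun k hk => by exact_mod_cast hk.ne'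
    refine noTate_tame T hn (hcast n hn) f q x y w hK hdeg hq hw
      (huni n dvd_rfl hn fun _ h => h) fun m hm => hD m hm ?_
    exact_mod_cast hcast 2 (by norm_num)
  have : Fact p.Prime := ⟨hp⟩
  obtain ⟨m, n', hpn, hnn⟩ := Nat.exists_eq_pow_mul_and_not_dvd hn.ne' p hp.ne_one
  have hn0 : 0 < n' := by
    rcases Nat.eq_zero_or_pos n' with h | h
    · subst h
      exact absurd (dvd_zero p) hpn
    · exact h
  have hcast : (n' : Ω) ≠ 0 := by
    rw [Ne, CharP.cast_eq_zero_iff Ω p]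
    exact hpn
  have hq0 : 0 < p ^ m := pow_pos hp.pos m
  have hKp : CharP K p := charP_of_injective_algebraMap (algebraMap Ω K).injective p
  obtain ⟨K1, hK1⟩ : ∃ K1 : IntermediateField Ω K, K1 = adjoin Ω {x, y, w ^ p ^ m} := ⟨_, rfl⟩
  have hx : x ∈ K1 := by
    rw [hK1]
    exact subset_adjoin _ _ (by simp)
  have hy : y ∈ K1 := by
    rw [hK1]
    exact subset_adjoin _ _ (by simp)
  have hw1 : w ^ p ^ m ∈ K1 := by
    rw [hK1]
    exact subset_adjoin _ _ (by simp)
  obtain ⟨htop1, hdeg1⟩ := Pool.Agent.Helper15.TD.reduce hq0 hn0 x y w hK (by rw [← hnn]; exact hwF)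
    (by rw [hdeg, hnn]) K1 hK1 hx hy hw1
  have hpow : ∀ k : K, k ^ p ^ m ∈ K1 := by
    intro k
    let N : IntermediateField Ω K :=
      { K1.toSubfield.comap (iterateFrobenius K p m : K →+* K) with
        algebraMap_mem' := fun a => by
          show iterateFrobenius K p m (algebraMap Ω K a) ∈ K1
          rw [iterateFrobenius_def, ← map_pow]
          exact K1.algebraMap_mem _ }
    have h1 : (⊤ : IntermediateField Ω K) ≤ N := by
      rw [← hK, adjoin_le_iff]
      rintro a (rfl | rfl | rfl)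
      · show iterateFrobenius K p m a ∈ K1
        rw [iterateFrobenius_def]
        exact pow_mem hx _
      · show iterateFrobenius K p m a ∈ K1
        rw [iterateFrobenius_def]
        exact pow_mem hy _
      · show iterateFrobenius K p m a ∈ K1
        rw [iterateFrobenius_def]
        exact hw1
    have h2 : iterateFrobenius K p m k ∈ K1 := h1 (mem_top (x := k))
    rwa [iterateFrobenius_def] at h2
  have hfg1 : (⊤ : IntermediateField Ω K1).FG := by
    rw [← htop1]
    exact fg_adjoin_of_finite (Set.toFinite _)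
  refine noTate_insep T hfg m K1 hfg1 hpow ?_
  obtain ⟨x1, hx1⟩ : ∃ x1 : K1, x1 = ⟨x, hx⟩ := ⟨_, rfl⟩
  obtain ⟨y1, hy1⟩ : ∃ y1 : K1, y1 = ⟨y, hy⟩ := ⟨_, rfl⟩
  obtain ⟨w1, hw1'⟩ : ∃ w1 : K1, w1 = ⟨w ^ p ^ m, hw1⟩ := ⟨_, rfl⟩
  have hx' : K1.val x1 = x := by rw [hx1]; rfl
  have hy' : K1.val y1 = y := by rw [hy1]; rfl
  have hw' : K1.val w1 = w ^ p ^ m := by rw [hw1']; rfl
  rw [← hx1, ← hy1, ← hw1'] at htop1
  rw [← hx1, ← hy1] at hdeg1
  have hval : ∀ g : MvPolynomial (Fin 2) Ω, K1.val (val g x1 y1) = val g x y := by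
    intro g
    rw [map_val, hx', hy']
  refine noTate_tame T hn0 hcast f q x1 y1 w1 htop1 hdeg1 ?_ ?_
    (huni n' (Dvd.intro_left (p ^ m) hnn.symm) hn0 ?_) ?_
  · intro h
    apply hq
    rw [← hval, h, map_zero]
  · have e1 : K1.val (w1 ^ n' * val q x1 y1 ^ 2) = K1.val (val f x1 y1) := by
      rw [map_mul, map_pow, map_pow, hval, hval, hw', ← pow_mul, ← hnn, hw]
    exact K1.val.injective e1
  · intro h2 he
    rw [hnn, Nat.even_mul] at he
    rcases he with he | he
    · exfalso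
      have h3 : Even p := by
        by_contra h4
        rw [Nat.not_even_iff_odd] at h4
        exact (Nat.not_even_iff_odd.2 (h4.pow (n := m))) he
      have h5 : p = 2 := (Nat.Prime.even_iff hp).1 h3
      apply h2
      have h6 := CharP.cast_eq_zero Ω p
      rw [h5] at h6
      exact_mod_cast h6
    · exact he
  · intro m' hm'
    have h2 : (2 : Ω) ≠ 0 := by
      intro h
      apply hcast
      rw [hm', Nat.cast_mul, Nat.cast_ofNat, h, zero_mul]
    have h3 : n = 2 * (p ^ m * m') := by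
      rw [hnn, hm']
      ring
    have h4 := hD (p ^ m * m') h3 h2
    refine noTate_sub T K1 _ (Set.toFinite _) {x, y, w ^ (p ^ m * m')} ?_ h4
    rw [Set.image_insert_eq, Set.image_insert_eq, Set.image_singleton, map_pow, pow_mul, hx', hy',
      hw']

end

end Pool.Agent.Helper35.WC
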