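import Pool.Agent.Helper35.TD.Generic
import Pool.Agent.Helper73.QW.Lin

/-! Project WC: Tate classes which come from a subfield, and covers with a finite abelian group. -/

set_option autoImplicit false

namespace Pool.Agent.Helper35.WC

open IntermediateField Module Pool.Agent.Helper75.QC Pool.Agent.Helper35.TD

section

variable {F Ω L : Type} [Field F] [Field Ω] [Algebra F Ω] [Algebra.IsAlgebraic F Ω]
  [Field L] (T : GaloisTheory F Ω L)

/-- a Tate class which comes from a field without Tate classes -/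
theorem zero_of_range {K K' : Type} [Field K] [Algebra Ω K] [Field K'] [Algebra Ω K']
    (hK' : (⊤ : IntermediateField Ω K').FG) (H : NoTate T K') (h : K' →ₐ[Ω] K)
    (halg : ∀ a : K, IsAlgebraic h.fieldRange a) (U : Subgroup (Ω ≃ₐ[F] Ω))
    (hU : IsOpen (U : Set (Ω ≃ₐ[F] Ω))) (γ : (Ω ≃ₐ[F] Ω) → (K →+* K)) (hγ : IsForm U γ)
    (t : T.H 2 K) (ht : ∀ τ ∈ U, T.act 2 (γ τ) t = ((T.cyc τ)⁻¹ : Lˣ) • t)
    (s : T.H 2 K') (hs : T.map 2 h s = t) : t = 0 := by
  obtain ⟨W, hW, γ₀, hform⟩ := exists_form_fg (F := F) hK'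
  obtain ⟨V, hVU, hVW, hV, hcomp⟩ := exists_equivariant hK' h U hU γ hγ W hW γ₀ hform
  have h0 : s = 0 := by
    refine H V hV γ₀ (hform.mono hVW) _ fun τ hτ => ?_
    apply T.inj 2 h halg
    have hid : IsOver (RingEquiv.refl Ω) (h : K' →+* K) := fun a => h.commutes a
    have h1 : (γ τ).comp (h : K' →+* K) = (h : K' →+* K).comp (γ₀ τ) :=
      RingHom.ext fun k => (hcomp τ hτ k).symm
    have h2 := LinearMap.congr_fun (T.act_comp 2 (τ : Ω ≃+* Ω) (RingEquiv.refl Ω) (γ τ)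
      (h : K' →+* K) (hγ.1 τ (hVU hτ)) hid) s
    have h3 := LinearMap.congr_fun (T.act_comp 2 (RingEquiv.refl Ω) (τ : Ω ≃+* Ω)
      (h : K' →+* K) (γ₀ τ) hid (hform.1 τ (hVW hτ))) s
    rw [h1, h3, LinearMap.comp_apply, LinearMap.comp_apply, T.act_map, hs, ht τ (hVU hτ),
      ← hs, Units.smul_def, ← map_smul] at h2
    exact h2
  rw [← hs, h0, map_zero]

/-- **A finite abelian group.** If for every character of the group the eigenclasses come from a
field without Tate classes, there are no Tate classes. -/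
theorem noTate_of_group [CharZero L] [IsAlgClosed L] {K : Type} [Field K] [Algebra Ω K]
    (hK : (⊤ : IntermediateField Ω K).FG) {G : Type} [CommGroup G] [Finite G]
    (a : G → (K →ₐ[Ω] K)) (h1 : a 1 = AlgHom.id Ω K) (hmul : ∀ g g', a (g * g') = (a g).comp (a g'))
    (H : ∀ χ : G →* Lˣ, ∃ N : IntermediateField Ω K, (⊤ : IntermediateField Ω N).FG ∧
      NoTate T N ∧ (∀ k : K, IsAlgebraic N k) ∧ ∀ t : T.H 2 K,
        (∀ g, T.map 2 (a g) t = ((χ g : Lˣ) : L) • t) → ∃ s, T.map 2 N.val s = t) :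
    NoTate T K := by
  classical
  intro U hU γ hγ t ht
  have : FiniteDimensional L (T.H 2 K) := T.fin 2 K hK
  have hex : ∀ g : G, ∃ V : Subgroup (Ω ≃ₐ[F] Ω), V ≤ U ∧ IsOpen (V : Set (Ω ≃ₐ[F] Ω)) ∧
      ∀ τ ∈ V, ∀ k, a g (γ τ k) = γ τ (a g k) := by
    intro g
    obtain ⟨V, h1, -, h2, h3⟩ := exists_equivariant hK (a g) U hU γ hγ U hU γ hγ
    exact ⟨V, h1, h2, h3⟩
  choose V hVU hV hcomm using hex
  obtain ⟨W, hW⟩ : ∃ W : Subgroup (Ω ≃ₐ[F] Ω), W = ⨅ g, V g := ⟨_, rfl⟩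
  have hWV : ∀ g, W ≤ V g := fun g => by
    rw [hW]
    exact iInf_le _ g
  have hWU : W ≤ U := (hWV 1).trans (hVU 1)
  have hWo : IsOpen (W : Set (Ω ≃ₐ[F] Ω)) := by
    rw [hW, Subgroup.coe_iInf]
    exact isOpen_iInter_of_finite fun g => hV g
  have hform : IsForm W γ := hγ.mono hWU
  have hactcomm : ∀ g, ∀ τ ∈ W, ∀ r : T.H 2 K,
      T.act 2 (γ τ) (T.map 2 (a g) r) = T.map 2 (a g) (T.act 2 (γ τ) r) := by
    intro g τ hτ r
    have hid : IsOver (RingEquiv.refl Ω) (a g : K →+* K) := fun b => (a g).commutes b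
    have e1 : (γ τ).comp (a g : K →+* K) = (a g : K →+* K).comp (γ τ) :=
      RingHom.ext fun k => (hcomm g τ (hWV g hτ) k).symm
    have e2 := LinearMap.congr_fun (T.act_comp 2 (τ : Ω ≃+* Ω) (RingEquiv.refl Ω) (γ τ)
      (a g : K →+* K) (hform.1 τ hτ) hid) r
    have e3 := LinearMap.congr_fun (T.act_comp 2 (RingEquiv.refl Ω) (τ : Ω ≃+* Ω)
      (a g : K →+* K) (γ τ) hid (hform.1 τ hτ)) r
    rw [e1, e3, LinearMap.comp_apply, LinearMap.comp_apply, T.act_map] at e2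
    exact e2.symm
  obtain ⟨P, hP⟩ : ∃ P : Submodule L (T.H 2 K), ∀ t, t ∈ P ↔ ∀ τ ∈ W,
      T.act 2 (γ τ) t = ((T.cyc τ)⁻¹ : Lˣ) • t :=
    ⟨{ carrier := {t | ∀ τ ∈ W, T.act 2 (γ τ) t = ((T.cyc τ)⁻¹ : Lˣ) • t}
       add_mem' := fun {a b} ha hb τ hτ => by rw [map_add, ha τ hτ, hb τ hτ, smul_add]
       zero_mem' := fun τ _ => by rw [map_zero, smul_zero]
       smul_mem' := fun c a ha τ hτ => by rw [map_smul, ha τ hτ, smul_comm] },
      fun t => Iff.rfl⟩
  have hPst : ∀ (g : G), ∀ r ∈ P, T.map 2 (a g) r ∈ P := by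
    intro g r hr
    rw [hP] at hr ⊢
    intro τ hτ
    rw [hactcomm g τ hτ, hr τ hτ, Units.smul_def, Units.smul_def, map_smul]
  let ρ : G →* End L P :=
    { toFun := fun g => (T.map 2 (a g)).restrict (hPst g)
      map_one' := by
        ext r
        show T.map 2 (a 1) (r : T.H 2 K) = r
        rw [h1, T.map_id]
        rfl
      map_mul' := fun g g' => by
        ext r
        show T.map 2 (a (g * g')) (r : T.H 2 K) = T.map 2 (a g) (T.map 2 (a g') r)
        rw [hmul, T.map_comp]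
        rfl }
  have key : (⊥ : Submodule L P) = ⊤ := by
    refine Pool.Agent.Helper73.QW.top_of_group ρ (fun g g' => ?_) ⊥ ?_
    · show ρ g * ρ g' = ρ g' * ρ g
      rw [← map_mul, ← map_mul, mul_comm]
    · intro χ r hr
      rw [Submodule.mem_bot]
      apply Subtype.ext
      obtain ⟨N, hN, hN2, halg, hdesc⟩ := H χ
      obtain ⟨s, hs⟩ := hdesc (r : T.H 2 K) fun g => congrArg Subtype.val (hr g)
      refine zero_of_range T hN hN2 N.val ?_ W hWo γ hform (r : T.H 2 K) ((hP _).1 r.2) s hs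
      intro k
      have h2 : N.val.fieldRange = N := fieldRange_val N
      rw [h2]
      exact halg k
  have hmem : t ∈ P := (hP t).2 fun τ hτ => ht τ (hWU hτ)
  have h3 : (⟨t, hmem⟩ : P) ∈ (⊥ : Submodule L P) := by
    rw [key]
    exact Submodule.mem_top
  exact congrArg Subtype.val ((Submodule.mem_bot L).1 h3)

end

end Pool.Agent.Helper35.WC
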