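import Pool.Agent.Helper35.WC.Gen
import Pool.Agent.Helper75.WC.Row

/-! Project WC: the surfaces `w ^ n * q(x, y) ^ 2 = f(x, y)` under the condition on the degrees. -/

set_option autoImplicit false

namespace Pool.Agent.Helper35.WC

open IntermediateField Pool.Agent.Helper75.QC Pool.Agent.Helper75.TC Pool.Agent.Helper35.TD
open Pool.Agent.Helper40.SD Pool.Agent.Helper75.WC

variable {F Ω L : Type} [Field F] [Field Ω] [Algebra F Ω] [Algebra.IsAlgebraic F Ω]
    [IsAlgClosed Ω] [Field L] [CharZero L] [IsAlgClosed L] (T : GaloisTheory F Ω L)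

/-- **The row.** -/
theorem noTate_weights {K : Type} [Field K] [Algebra Ω K] {n : ℕ} (hn : 0 < n)
    (f q : MvPolynomial (Fin 2) Ω) {a b c k e : ℕ}
    (H : Weights n f q a b c k e) (x y w : K) (hK : adjoin Ω {x, y, w} = ⊤)
    (hdeg : Module.finrank (adjoin Ω {x, y}) K = n) (hq : val q x y ≠ 0)
    (hw : w ^ n * val q x y ^ 2 = val f x y)
    (hD : c = 0 ∨ Odd n ∨ ((2 : Ω) ≠ 0 ∧ ∀ m : ℕ, n = 2 * m →
      NoTate T (adjoin Ω {x, y, w ^ m} : IntermediateField Ω K))) : NoTate T K := by
  refine noTate_gen T hn f q x y w hK hdeg hq hw ?_ ?_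
  · intro n' hnn hn0 he N _ _ x y v s hq0 hv0 hv1 hv
    have hs0 : s ≠ 0 := by
      rintro rfl
      rw [zero_pow hn0.ne', zero_mul] at hv
      exact mul_ne_zero (mul_ne_zero hv0 hv1) (pow_ne_zero 2 hq0) hv
    refine H.uni (Nat.le_of_dvd hn hnn) ?_ x y v s hq0 hs0 hv
    rcases hD with h | h | ⟨h2, -⟩
    · exact Or.inl h
    · exact Or.inr (Or.inl h)
    · right
      rcases Nat.even_or_odd n with h | h
      · exact Or.inr (he h2 h)
      · exact Or.inl h
  · intro m hm h2
    rcases hD with h | h | ⟨-, h⟩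
    · subst h
      obtain ⟨h0, hk, hf, hq'⟩ := H
      have hU : Uniruled Ω (adjoin Ω {x, y, w ^ m} : IntermediateField Ω K) 2 := by
        have h3 : Uniruled Ω (adjoin Ω {x, y, w ^ m * val q x y} : IntermediateField Ω K) 2 := by
          refine uni_double_all f 0 (Or.inl h2) a b (by simpa using h0) (fun i hi => ?_)
            (fun i hi => by simp at hi) x y _ ?_
          · have := hf i hi
            simpa using this
          · rw [map_zero, zero_mul, zero_add]
            show (w ^ m * val q x y) ^ 2 = val f x y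
            rw [← hw, hm, mul_pow, ← pow_mul, mul_comm m 2]
        refine uniruled_le (S := {x, y, w ^ m}) (T := {x, y, w ^ m * val q x y}) ?_ h3
        have mx : x ∈ adjoin Ω {x, y, w ^ m * val q x y} := subset_adjoin _ _ (by simp)
        have my : y ∈ adjoin Ω {x, y, w ^ m * val q x y} := subset_adjoin _ _ (by simp)
        rintro s (rfl | rfl | rfl)
        · exact mx
        · exact my
        · have h5 : w ^ m * val q x y / val q x y ∈ adjoin Ω {x, y, w ^ m * val q x y} :=
            div_mem (subset_adjoin _ _ (by simp)) (val_mem q _ mx my)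
          rwa [mul_div_cancel_right₀ _ hq] at h5
      intro U _ γ _ t _
      exact T.uniruled 2 _ hU t
    · obtain ⟨j, hj⟩ := h
      omega
    · exact h m hm

end Pool.Agent.Helper35.WC
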