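import Pool.Agent.Helper35.WC.Prim
import Pool.Agent.Helper35.WC.Cyclic

/-! Project WC. Finite abelian extensions `K / R` of the plane: it is enough to treat the faithful
characters of the cyclic subextensions. -/

set_option autoImplicit false

namespace Pool.Agent.Helper35.WC

open IntermediateField Pool.Agent.Helper75.QC Pool.Agent.Helper35.TD

/-- `M = R(w)` is a cyclic extension of `R = Ω(x, y)`, and the threefold
`v ^ α (1 - v) ^ β = s ^ n w ^ n` is uniruled. -/
def RowData (Ω R M : Type) [Field Ω] [Field R] [Algebra Ω R] [Field M] [Algebra Ω M]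
    [Algebra R M] : Prop :=
  ∃ (n α β : ℕ) (x y : R) (w : M), 0 < n ∧ (n : Ω) ≠ 0 ∧ (α.gcd β).Coprime n ∧
    ¬ n ∣ α ∧ ¬ n ∣ β ∧ ¬ n ∣ (α + β) ∧ adjoin Ω {x, y} = ⊤ ∧ adjoin R {w} = ⊤ ∧
    Module.finrank R M = n ∧ w ≠ 0 ∧ w ^ n ∈ (algebraMap R M).range ∧
    ∀ (N : Type) [Field N] [Algebra Ω N] (g : M →ₐ[Ω] N) (v s : N),
      Transcendental g.fieldRange v → v ^ α * (1 - v) ^ β = s ^ n * g w ^ n →
      Uniruled Ω (adjoin Ω {g (algebraMap R M x), g (algebraMap R M y), v, s} :
        IntermediateField Ω N) 3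

theorem isGalois_of_comm {R K : Type} [Field R] [Field K] [Algebra R K] [FiniteDimensional R K]
    [IsGalois R K] (hab : ∀ g h : K ≃ₐ[R] K, g * h = h * g) (M : IntermediateField R K) :
    IsGalois R M := by
  obtain ⟨H, hH⟩ : ∃ H : Subgroup (K ≃ₐ[R] K), H = M.fixingSubgroup := ⟨_, rfl⟩
  have hn : H.Normal := ⟨fun n hn g => by
    rw [hab g n, mul_assoc, mul_inv_cancel, mul_one]
    exact hn⟩
  have h1 : fixedField H = M := by
    rw [hH]
    exact IsGalois.fixedField_fixingSubgroup M
  rw [← h1]
  exact IsGalois.of_fixedField_normal_subgroup H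

theorem cyclic_sub {R M : Type} [Field R] [Field M] [Algebra R M] [FiniteDimensional R M]
    [IsGalois R M] (hc : IsCyclic (M ≃ₐ[R] M)) (M' : IntermediateField R M) :
    IsCyclic (M' ≃ₐ[R] M') := by
  have hab : ∀ g h : M ≃ₐ[R] M, g * h = h * g := by
    intro g h
    let _ := IsCyclic.commGroup (α := M ≃ₐ[R] M)
    exact mul_comm g h
  have h1 : IsGalois R M' := isGalois_of_comm hab M'
  exact isCyclic_of_surjective (AlgEquiv.restrictNormalHom M')
    (AlgEquiv.restrictNormalHom_surjective M)

variable {F Ω L : Type} [Field F] [Field Ω] [Algebra F Ω] [Algebra.IsAlgebraic F Ω]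
    [IsAlgClosed Ω] [Field L] [CharZero L] [IsAlgClosed L] (T : GaloisTheory F Ω L)

theorem noTate_rows {K : Type} [Field K] [Algebra Ω K] (R : IntermediateField Ω K)
    (hR : (⊤ : IntermediateField Ω R).FG) [FiniteDimensional R K] [IsGalois R K]
    (hab : ∀ g h : K ≃ₐ[R] K, g * h = h * g)
    (H : ∀ M : IntermediateField R K, IsCyclic (M ≃ₐ[R] M) → NoTate T M ∨ RowData Ω R M) :
    NoTate T K ∧ (⊤ : IntermediateField Ω K).FG := by
  classical
  have hfg : ∀ M : IntermediateField R K, (⊤ : IntermediateField Ω M).FG := by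
    intro M
    have h1 := Pool.Agent.Helper48.WC.fg_top_of_fg (Pool.Agent.Helper48.WC.fg_restrict R
      (Pool.Agent.Helper48.WC.fg_of_fg_top hR) M)
    exact h1
  refine noTate_of_cyclic T R hab fun M hc => ⟨?_, hfg M⟩
  obtain ⟨n, hn⟩ : ∃ n, n = Module.finrank R M := ⟨_, rfl⟩
  induction n using Nat.strong_induction_on generalizing M with
  | _ n IH =>
  rcases H M hc with h | ⟨n', α, β, x, y, w, hn0, hnΩ, hαβ, hα, hβ, hαβ', hxy, hw, hdeg, hw0, hwn,
    huni⟩
  · exact h
  obtain rfl : n' = n := hdeg.symm.trans hn.symm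
  have hGM : IsGalois R M := isGalois_of_comm hab M
  obtain ⟨x', hx'⟩ : ∃ x' : M, x' = algebraMap R M x := ⟨_, rfl⟩
  obtain ⟨y', hy'⟩ : ∃ y' : M, y' = algebraMap R M y := ⟨_, rfl⟩
  have hRle : ∀ r : R, algebraMap R M r ∈ (adjoin Ω {x', y'} : IntermediateField Ω M) := by
    intro r
    let i : R →ₐ[Ω] M :=
      { toRingHom := algebraMap R M
        commutes' := fun c => rfl }
    have h1 : (adjoin Ω {x, y}).map i = adjoin Ω {x', y'} := by
      rw [adjoin_map, Set.image_pair, hx', hy']
      rfl
    rw [← h1, hxy]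
    exact ⟨r, mem_top, rfl⟩
  have hK : adjoin Ω {x', y', w} = ⊤ := by
    have h1 : (adjoin R {w} : IntermediateField R M) ≤ ⊤ := le_top
    have h2 : ∀ m : M, m ∈ (adjoin Ω {x', y', w} : IntermediateField Ω M) := by
      intro m
      have h3 : m ∈ (adjoin R {w} : IntermediateField R M) := by
        rw [hw]
        exact mem_top
      have h4 : (adjoin Ω {x', y'} : IntermediateField Ω M) ≤ adjoin Ω {x', y', w} :=
        adjoin.mono Ω _ _ (by
          rintro a (rfl | rfl)
          · simp
          · simp)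
      induction h3 using adjoin_induction with
      | mem a ha =>
        rw [Set.mem_singleton_iff] at ha
        rw [ha]
        exact subset_adjoin _ _ (by simp)
      | algebraMap r => exact h4 (hRle r)
      | add a b _ _ ha hb => exact add_mem ha hb
      | inv a _ ha => exact inv_mem ha
      | mul a b _ _ ha hb => exact mul_mem ha hb
    rw [eq_top_iff]
    exact fun m _ => h2 m
  have hle : ∀ a ∈ (adjoin Ω {x', y'} : IntermediateField Ω M), ∃ r : R, algebraMap R M r = a := by
    intro a ha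
    let i : R →ₐ[Ω] M :=
      { toRingHom := algebraMap R M
        commutes' := fun c => rfl }
    have h1 : (adjoin Ω {x, y}).map i = adjoin Ω {x', y'} := by
      rw [adjoin_map, Set.image_pair, hx', hy']
      rfl
    rw [← h1] at ha
    obtain ⟨r, -, hr⟩ := ha
    exact ⟨r, hr⟩
  have hdeg' : Module.finrank (adjoin Ω {x', y'} : IntermediateField Ω M) M = n' := by
    let i : R →+* (adjoin Ω {x', y'} : IntermediateField Ω M) :=
      (algebraMap R M).codRestrict (adjoin Ω {x', y'} : IntermediateField Ω M) hRle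
    let e : R ≃+* (adjoin Ω {x', y'} : IntermediateField Ω M) :=
      RingEquiv.ofBijective i ⟨i.injective, fun a => by
        obtain ⟨r, hr⟩ := hle a a.2
        exact ⟨r, Subtype.ext hr⟩⟩
    rw [← hdeg]
    exact (Algebra.finrank_eq_of_equiv_equiv e (RingEquiv.refl M) rfl).symm
  have hw' : w ^ n' ∈ (adjoin Ω {x', y'} : IntermediateField Ω M) := by
    obtain ⟨r, hr⟩ := hwn
    rw [← hr]
    exact hRle r
  refine tame_ab T α β hαβ hn0 hnΩ x' y' w hK hw0 hw' hdeg' ?_ ?_
  · intro N _ _ g v s hv hs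
    rw [hx', hy']
    exact huni N g v s hv hs
  · intro ξ hξn hξ
    obtain ⟨d, hd⟩ : ∃ d, d = orderOf ξ := ⟨_, rfl⟩
    have hdn : d ∣ n' := by
      rw [hd]
      exact orderOf_dvd_of_pow_eq_one hξn
    obtain ⟨m, hm⟩ := hdn
    have hne : d ≠ n' := by
      rintro rfl
      rcases hξ with h | h | h
      · exact hα (hd ▸ orderOf_dvd_of_pow_eq_one h)
      · exact hβ (hd ▸ orderOf_dvd_of_pow_eq_one h)
      · exact hαβ' (hd ▸ orderOf_dvd_of_pow_eq_one h)
    have hd0 : 0 < d := Nat.pos_of_ne_zero (by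
      rintro rfl
      rw [zero_mul] at hm
      omega)
    have hm0 : 0 < m := Nat.pos_of_ne_zero (by
      rintro rfl
      rw [mul_zero] at hm
      omega)
    have hdlt : d < n' := lt_of_le_of_ne (by
      rw [hm]
      exact Nat.le_mul_of_pos_right _ hm0) hne
    refine ⟨d, m, hm, by rw [hd]; exact pow_orderOf_eq_one ξ, ?_⟩
    obtain ⟨M', hM'⟩ : ∃ M' : IntermediateField R M, M' = adjoin R {w ^ m} := ⟨_, rfl⟩
    have hcM' : IsCyclic (M' ≃ₐ[R] M') := cyclic_sub hc M'
    let e : M' ≃ₐ[R] lift M' := liftAlgEquiv M'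
    have hcL : IsCyclic (lift M' ≃ₐ[R] lift M') :=
      (MulEquiv.isCyclic (AlgEquiv.autCongr e)).1 hcM'
    have hfin : Module.finrank R (lift M') < n' := by
      rw [← e.toLinearEquiv.finrank_eq, hM']
      have h1 : Module.finrank R (adjoin R {w ^ m} : IntermediateField R M) =
          (minpoly R (w ^ m)).natDegree := adjoin.finrank (Algebra.IsIntegral.isIntegral _)
      obtain ⟨r, hr⟩ := hwn
      have h2 : minpoly R (w ^ m) ∣ Polynomial.X ^ d - Polynomial.C r := by
        refine minpoly.dvd R _ ?_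
        rw [map_sub, map_pow, Polynomial.aeval_X, Polynomial.aeval_C, hr, ← pow_mul, mul_comm m,
          ← hm, sub_self]
      have h3 := Polynomial.natDegree_le_of_dvd h2 (Polynomial.X_pow_sub_C_ne_zero hd0 r)
      rw [Polynomial.natDegree_X_pow_sub_C] at h3
      have h4 : Module.finrank R (adjoin R {w ^ m} : IntermediateField R M) ≤ d := h1.trans_le h3
      exact h4.trans_lt hdlt
    have h1 := IH _ hfin (lift M') hcL rfl
    have hmem1 : ∀ a ∈ (adjoin Ω {x', y', w ^ m} : IntermediateField Ω M), a ∈ M' := by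
      intro a ha
      have h2 : (adjoin Ω {x', y', w ^ m} : IntermediateField Ω M) ≤ M'.restrictScalars Ω := by
        rw [adjoin_le_iff]
        rintro b (rfl | rfl | rfl)
        · rw [hx']
          exact M'.algebraMap_mem x
        · rw [hy']
          exact M'.algebraMap_mem y
        · show w ^ m ∈ M'
          rw [hM']
          exact subset_adjoin _ _ rfl
      exact h2 ha
    have hmem2 : ∀ a ∈ M', a ∈ (adjoin Ω {x', y', w ^ m} : IntermediateField Ω M) := by
      intro a ha
      rw [hM'] at ha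
      have h4 : (adjoin Ω {x', y'} : IntermediateField Ω M) ≤ adjoin Ω {x', y', w ^ m} :=
        adjoin.mono Ω _ _ (by
          rintro a (rfl | rfl)
          · simp
          · simp)
      induction ha using adjoin_induction with
      | mem a ha =>
        rw [Set.mem_singleton_iff] at ha
        rw [ha]
        exact subset_adjoin _ _ (by simp)
      | algebraMap r => exact h4 (hRle r)
      | add a b _ _ ha hb => exact add_mem ha hb
      | inv a _ ha => exact inv_mem ha
      | mul a b _ _ ha hb => exact mul_mem ha hb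
    let ι : (adjoin Ω {x', y', w ^ m} : IntermediateField Ω M) →ₐ[Ω] lift M' :=
      { toFun := fun a => e ⟨a.1, hmem1 a.1 a.2⟩
        map_one' := rfl
        map_mul' := fun _ _ => rfl
        map_zero' := rfl
        map_add' := fun _ _ => rfl
        commutes' := fun _ => rfl }
    refine NoTate.of_hom T h1 (hfg _) (Pool.Agent.Helper75.WC.fg_sub (Set.toFinite _)) ι ?_
    intro a
    obtain ⟨b, hb⟩ := e.surjective a
    exact isAlgebraic_algebraMap (⟨a, ⟨b.1, hmem2 b.1 b.2⟩, hb⟩ : ι.fieldRange)

end Pool.Agent.Helper35.WC
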