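import Pool.Agent.Helper35.WC.Rows

/-! Project WC. Finite abelian extensions `K / R`: the faithful characters of the cyclic
subextensions `M / R`, where `M = P(w)` for a plane `P = Ω(x, y)` between `R` and `M`. -/

set_option autoImplicit false

namespace Pool.Agent.Helper35.WC

open IntermediateField Pool.Agent.Helper75.QC Pool.Agent.Helper35.TD

/-- `M = Ω(x, y, w)` is a Kummer extension of `Ω(x, y)`, which contains `R`, and the threefold
`v ^ α (1 - v) ^ β = s ^ n w ^ n` is uniruled. -/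
def RowDataM (Ω R M : Type) [Field Ω] [Field R] [Field M] [Algebra Ω M] [Algebra R M] : Prop :=
  ∃ (n α β : ℕ) (x y w : M), 0 < n ∧ (n : Ω) ≠ 0 ∧ (α.gcd β).Coprime n ∧
    ¬ n ∣ α ∧ ¬ n ∣ β ∧ ¬ n ∣ (α + β) ∧
    (∀ r : R, algebraMap R M r ∈ (adjoin Ω {x, y} : IntermediateField Ω M)) ∧
    adjoin Ω {x, y, w} = ⊤ ∧
    Module.finrank (adjoin Ω {x, y} : IntermediateField Ω M) M = n ∧ w ≠ 0 ∧
    w ^ n ∈ (adjoin Ω {x, y} : IntermediateField Ω M) ∧
    ∀ (N : Type) [Field N] [Algebra Ω N] (g : M →ₐ[Ω] N) (v s : N),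
      Transcendental g.fieldRange v → v ^ α * (1 - v) ^ β = s ^ n * g w ^ n →
      Uniruled Ω (adjoin Ω {g x, g y, v, s} : IntermediateField Ω N) 3

variable {F Ω L : Type} [Field F] [Field Ω] [Algebra F Ω] [Algebra.IsAlgebraic F Ω]
    [IsAlgClosed Ω] [Field L] [CharZero L] [IsAlgClosed L] (T : GaloisTheory F Ω L)

theorem noTate_rowsM {K : Type} [Field K] [Algebra Ω K] (R : IntermediateField Ω K)
    (hR : (⊤ : IntermediateField Ω R).FG) [FiniteDimensional R K] [IsGalois R K]
    (hab : ∀ g h : K ≃ₐ[R] K, g * h = h * g)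
    (H : ∀ M : IntermediateField R K, IsCyclic (M ≃ₐ[R] M) → NoTate T M ∨ RowDataM Ω R M) :
    NoTate T K ∧ (⊤ : IntermediateField Ω K).FG := by
  classical
  have hfg : ∀ M : IntermediateField R K, (⊤ : IntermediateField Ω M).FG := by
    intro M
    have h1 := Pool.Agent.Helper48.WC.fg_top_of_fg (Pool.Agent.Helper48.WC.fg_restrict R
      (Pool.Agent.Helper48.WC.fg_of_fg_top hR) M)
    exact h1
  refine noTate_of_cyclic T R hab fun M hc => ⟨?_, hfg M⟩
  obtain ⟨k, hk⟩ : ∃ k, k = Module.finrank R M := ⟨_, rfl⟩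
  induction k using Nat.strong_induction_on generalizing M with
  | _ k IH =>
  rcases H M hc with h | ⟨n, α, β, x, y, w, hn0, hnΩ, hαβ, hα, hβ, hαβ', hRle, hK, hdeg, hw0,
    hwn, huni⟩
  · exact h
  have hGM : IsGalois R M := isGalois_of_comm hab M
  refine tame_ab T α β hαβ hn0 hnΩ x y w hK hw0 hwn hdeg huni ?_
  intro ξ hξn hξ
  obtain ⟨d, hd⟩ : ∃ d, d = orderOf ξ := ⟨_, rfl⟩
  have hdn : d ∣ n := by
    rw [hd]
    exact orderOf_dvd_of_pow_eq_one hξn
  obtain ⟨m, hm⟩ := hdn
  have hne : d ≠ n := by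
    rintro rfl
    rcases hξ with h | h | h
    · exact hα (hd ▸ orderOf_dvd_of_pow_eq_one h)
    · exact hβ (hd ▸ orderOf_dvd_of_pow_eq_one h)
    · exact hαβ' (hd ▸ orderOf_dvd_of_pow_eq_one h)
  have hd0 : 0 < d := Nat.pos_of_ne_zero (by
    rintro rfl
    rw [zero_mul] at hm
    omega)
  have hm0 : 0 < m := Nat.pos_of_ne_zero (by
    rintro rfl
    rw [mul_zero] at hm
    omega)
  have hdlt : d < n := lt_of_le_of_ne (by
    rw [hm]
    exact Nat.le_mul_of_pos_right _ hm0) hne
  refine ⟨d, m, hm, by rw [hd]; exact pow_orderOf_eq_one ξ, ?_⟩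
  obtain ⟨P, hP⟩ : ∃ P : IntermediateField Ω M, P = adjoin Ω {x, y} := ⟨_, rfl⟩
  obtain ⟨N, hN⟩ : ∃ N : IntermediateField Ω M, N = adjoin Ω {x, y, w ^ m} := ⟨_, rfl⟩
  have hPN : P ≤ N := by
    rw [hP, hN]
    exact adjoin.mono Ω _ _ (by
      rintro a (rfl | rfl)
      · simp
      · simp)
  -- the field `N` as an extension of `R`
  let M' : IntermediateField R M :=
    { N.toSubfield with
      algebraMap_mem' := fun r => hPN (hP ▸ hRle r) }
  have hcM' : IsCyclic (M' ≃ₐ[R] M') := cyclic_sub hc M'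
  let e : M' ≃ₐ[R] lift M' := liftAlgEquiv M'
  have hcL : IsCyclic (lift M' ≃ₐ[R] lift M') :=
    (MulEquiv.isCyclic (AlgEquiv.autCongr e)).1 hcM'
  -- `M'` is a proper subfield
  have hlt : M' ≠ ⊤ := by
    intro htop
    have hNtop : N = ⊤ := by
      rw [eq_top_iff]
      intro a _
      have h1 : a ∈ M' := by
        rw [htop]
        exact mem_top
      exact h1
    -- the degree of `N` over `P` is at most `d`
    have hfinP : FiniteDimensional P M := Module.finite_of_finrank_pos (by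
      rw [hP, hdeg]
      exact hn0)
    obtain ⟨Q, hQ⟩ : ∃ Q : IntermediateField P M, Q = adjoin P {w ^ m} := ⟨_, rfl⟩
    have hQtop : Q = ⊤ := by
      rw [eq_top_iff]
      intro a _
      have h1 : N ≤ Q.restrictScalars Ω := by
        rw [hN, adjoin_le_iff]
        have hx : x ∈ P := by
          rw [hP]
          exact subset_adjoin _ _ (by simp)
        have hy : y ∈ P := by
          rw [hP]
          exact subset_adjoin _ _ (by simp)
        rintro b (rfl | rfl | rfl)
        · exact Q.algebraMap_mem (⟨_, hx⟩ : P)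
        · exact Q.algebraMap_mem (⟨_, hy⟩ : P)
        · show w ^ m ∈ Q
          rw [hQ]
          exact subset_adjoin _ _ rfl
      exact h1 (by
        rw [hNtop]
        exact mem_top)
    have h2 : Module.finrank P Q ≤ d := by
      rw [hQ, adjoin.finrank (Algebra.IsIntegral.isIntegral _)]
      have hwP : w ^ n ∈ P := by
        rw [hP]
        exact hwn
      have h3 : minpoly P (w ^ m) ∣ Polynomial.X ^ d - Polynomial.C (⟨w ^ n, hwP⟩ : P) := by
        refine minpoly.dvd P _ ?_
        rw [map_sub, map_pow, Polynomial.aeval_X, Polynomial.aeval_C]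
        show (w ^ m) ^ d - w ^ n = 0
        rw [← pow_mul, mul_comm m, ← hm, sub_self]
      have h4 := Polynomial.natDegree_le_of_dvd h3 (Polynomial.X_pow_sub_C_ne_zero hd0 _)
      rwa [Polynomial.natDegree_X_pow_sub_C] at h4
    have h5 : Module.finrank P Q = n := by
      rw [hQtop, finrank_top', ← hdeg, hP]
    omega
  have hfin : Module.finrank R (lift M') < k := by
    rw [← e.toLinearEquiv.finrank_eq, hk]
    have h1 : M' < ⊤ := lt_top_iff_ne_top.2 hlt
    have h2 : Module.finrank R M' < Module.finrank R (⊤ : IntermediateField R M) := by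
      by_contra h3
      rw [not_lt] at h3
      exact h1.ne (IntermediateField.eq_of_le_of_finrank_le h1.le h3)
    rwa [finrank_top'] at h2
  have h1 := IH _ hfin (lift M') hcL rfl
  have hmem1 : ∀ a ∈ (adjoin Ω {x, y, w ^ m} : IntermediateField Ω M), a ∈ M' := by
    intro a ha
    show a ∈ N
    rw [hN]
    exact ha
  let ι : (adjoin Ω {x, y, w ^ m} : IntermediateField Ω M) →ₐ[Ω] lift M' :=
    { toFun := fun a => e ⟨a.1, hmem1 a.1 a.2⟩
      map_one' := rfl
      map_mul' := fun _ _ => rfl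
      map_zero' := rfl
      map_add' := fun _ _ => rfl
      commutes' := fun _ => rfl }
  refine NoTate.of_hom T h1 (hfg _) (Pool.Agent.Helper75.WC.fg_sub (Set.toFinite _)) ι ?_
  intro a
  obtain ⟨b, hb⟩ := e.surjective a
  have hb' : b.1 ∈ (adjoin Ω {x, y, w ^ m} : IntermediateField Ω M) := by
    have h2 : b.1 ∈ N := b.2
    rwa [hN] at h2
  exact isAlgebraic_algebraMap (⟨a, ⟨b.1, hb'⟩, hb⟩ : ι.fieldRange)

end Pool.Agent.Helper35.WC
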