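import Pool.Agent.Helper35.WC.Prim
import Pool.Agent.Helper35.WC.Gen

/-! Project WC: the surfaces `w ^ 6 = f`, `deg f ≤ 6 (a + b)`, if the quotients `w ^ 3 = f` and
`w ^ 2 = f` are known. -/

set_option autoImplicit false

namespace Pool.Agent.Helper35.WC

open IntermediateField Pool.Agent.Helper75.QC Pool.Agent.Helper75.TC Pool.Agent.Helper35.TD

variable {F Ω L : Type} [Field F] [Field Ω] [Algebra F Ω] [Algebra.IsAlgebraic F Ω]
    [IsAlgClosed Ω] [Field L] [CharZero L] [IsAlgClosed L] (T : GaloisTheory F Ω L)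

omit [IsAlgClosed Ω] in
theorem charP_of_zero {p : ℕ} (hp : p.Prime) (h : ((p : ℕ) : Ω) = 0) : CharP Ω p := by
  obtain ⟨q, hq⟩ := CharP.exists Ω
  have h1 : q ∣ p := (CharP.cast_eq_zero_iff Ω q p).1 h
  rcases (Nat.dvd_prime hp).1 h1 with h2 | h2
  · exact absurd h2 (CharP.char_ne_one Ω q)
  · rwa [h2] at hq

/-- an inseparable cover of degree `p` -/
theorem noTate_pow {p : ℕ} [Fact p.Prime] [CharP Ω p] {K : Type} [Field K] [Algebra Ω K] (x y w : K)
    (hK : adjoin Ω {x, y, w} = ⊤)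
    (H : NoTate T (adjoin Ω {x, y, w ^ p} : IntermediateField Ω K)) : NoTate T K := by
  have hKp : CharP K p := charP_of_injective_algebraMap (algebraMap Ω K).injective p
  obtain ⟨K1, hK1⟩ : ∃ K1 : IntermediateField Ω K, K1 = adjoin Ω {x, y, w ^ p} := ⟨_, rfl⟩
  have hx : x ∈ K1 := by
    rw [hK1]
    exact subset_adjoin _ _ (by simp)
  have hy : y ∈ K1 := by
    rw [hK1]
    exact subset_adjoin _ _ (by simp)
  have hw1 : w ^ p ∈ K1 := by
    rw [hK1]
    exact subset_adjoin _ _ (by simp)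
  have hpow : ∀ k : K, k ^ p ^ 1 ∈ K1 := by
    intro k
    let N : IntermediateField Ω K :=
      { K1.toSubfield.comap (frobenius K p) with
        algebraMap_mem' := fun a => by
          show frobenius K p (algebraMap Ω K a) ∈ K1
          rw [frobenius_def, ← map_pow]
          exact K1.algebraMap_mem _ }
    have h1 : (⊤ : IntermediateField Ω K) ≤ N := by
      rw [← hK, adjoin_le_iff]
      rintro a (rfl | rfl | rfl)
      · show frobenius K p a ∈ K1
        rw [frobenius_def]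
        exact pow_mem hx _
      · show frobenius K p a ∈ K1
        rw [frobenius_def]
        exact pow_mem hy _
      · show frobenius K p a ∈ K1
        rw [frobenius_def]
        exact hw1
    have h2 : frobenius K p k ∈ K1 := h1 (mem_top (x := k))
    rw [frobenius_def] at h2
    rwa [pow_one]
  have hfg : (⊤ : IntermediateField Ω K).FG := by
    rw [← hK]
    exact fg_adjoin_of_finite (Set.toFinite _)
  rw [← hK1] at H
  refine noTate_insep T hfg 1 K1 ?_ hpow H
  rw [hK1]
  exact Pool.Agent.Helper75.WC.fg_sub (Set.toFinite _)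

/-- **The surfaces `w ^ 6 = f`**, given `w ^ 3 = f` and `w ^ 2 = f`. -/
theorem noTate_six (f : MvPolynomial (Fin 2) Ω) (a b : ℕ) (hpos : 0 < a + b)
    (hf : ∀ m ∈ f.support, a * m 0 + b * m 1 ≤ 6 * (a + b))
    {K : Type} [Field K] [Algebra Ω K] (x y w : K) (hK : adjoin Ω {x, y, w} = ⊤)
    (hdeg : Module.finrank (adjoin Ω {x, y}) K = 6)
    (hw : w ^ 6 = MvPolynomial.aeval ![x, y] f)
    (hD : ∀ i : ℕ, i = 2 ∨ i = 3 →
      NoTate T (adjoin Ω {x, y, w ^ i} : IntermediateField Ω K)) : NoTate T K := by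
  by_cases h2 : (2 : Ω) = 0
  · have : Fact (Nat.Prime 2) := ⟨Nat.prime_two⟩
    have : CharP Ω 2 := charP_of_zero Nat.prime_two (by exact_mod_cast h2)
    exact noTate_pow T (p := 2) x y w hK (hD 2 (Or.inl rfl))
  by_cases h3 : (3 : Ω) = 0
  · have : Fact (Nat.Prime 3) := ⟨Nat.prime_three⟩
    have : CharP Ω 3 := charP_of_zero Nat.prime_three (by exact_mod_cast h3)
    exact noTate_pow T (p := 3) x y w hK (hD 3 (Or.inr rfl))
  have hn' : ((6 : ℕ) : Ω) ≠ 0 := by
    have h6 : ((6 : ℕ) : Ω) = 2 * 3 := by norm_num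
    rw [h6]
    exact mul_ne_zero h2 h3
  have hwF : w ^ 6 ∈ adjoin Ω {x, y} := by
    rw [hw]
    exact aeval_mem75 x y f
  by_cases hw0 : w = 0
  · intro U _ γ _ t _
    exact T.uniruled 2 K (uniruled_surface (n := 6) x y w hK
      (by rw [hw0]; exact zero_mem _)) t
  refine tame_ab T 2 3 (n := 6) (by norm_num) (by norm_num) hn' x y w hK hw0 hwF hdeg ?_ ?_
  · intro N _ _ g v s hv hs
    have hv0 : v ≠ 0 := by
      rintro rfl
      exact hv isAlgebraic_zero
    have hv1 : 1 - v ≠ 0 := by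
      intro h
      have h1 : v = algebraMap g.fieldRange N 1 := by
        rw [map_one]
        exact (sub_eq_zero.1 h).symm
      exact hv (h1 ▸ isAlgebraic_algebraMap (1 : g.fieldRange))
    have hg : MvPolynomial.aeval ![g x, g y] f = g w ^ 6 := by
      rw [← map_aeval75, ← hw, map_pow]
    refine Pool.Agent.Helper15.QM.wsolid_six h2 f a b hpos hf (g x) (g y) v s ?_ hv0 hv1 ?_
    · rw [hg]
      exact pow_ne_zero _ ((map_ne_zero g).2 hw0)
    · rw [hg]
      exact hs
  · intro ξ hξn hξ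
    rcases hξ with h | h | h
    · exact ⟨2, 3, by norm_num, h, hD 3 (Or.inr rfl)⟩
    · exact ⟨3, 2, by norm_num, h, hD 2 (Or.inl rfl)⟩
    · have h5 : ξ = 1 := by
        have h6 : ξ ^ 6 = ξ ^ (2 + 3) * ξ := by rw [← pow_succ]
        rw [hξn, h, one_mul] at h6
        exact h6.symm
      exact ⟨2, 3, by norm_num, by rw [h5, one_pow], hD 3 (Or.inr rfl)⟩

end Pool.Agent.Helper35.WC
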