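import Pool.Agent.Helper35.WC.Range
import Pool.Agent.Helper15.QM.Rows
import Pool.Agent.Helper75.WC.Tame

/-! Project WC. The surfaces `w ^ n ∈ Ω(x, y)` for which the threefold `v (1 - v) = s ^ n w ^ n` is
uniruled: there are no Tate classes if there are none for the double plane `z ^ 2 = w ^ n`. -/

set_option autoImplicit false

namespace Pool.Agent.Helper35.WC

open IntermediateField Pool.Agent.Helper75.QC Pool.Agent.Helper35.TD

theorem fix_adjoin {Ω K : Type} [Field Ω] [Field K] [Algebra Ω K] (σ : K →ₐ[Ω] K) (S : Set K)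
    (hS : ∀ s ∈ S, σ s = s) {k : K} (hk : k ∈ adjoin Ω S) : σ k = k := by
  induction hk using adjoin_induction with
  | mem c hc => exact hS c hc
  | algebraMap c => exact σ.commutes c
  | add a b _ _ ha hb => rw [map_add, ha, hb]
  | inv a _ ha => rw [map_inv₀, ha]
  | mul a b _ _ ha hb => rw [map_mul, ha, hb]

/-- **The criterion.** -/
theorem tame_double {F Ω L : Type} [Field F] [Field Ω] [Algebra F Ω] [Algebra.IsAlgebraic F Ω]
    [IsAlgClosed Ω] [Field L] [CharZero L] [IsAlgClosed L] (T : GaloisTheory F Ω L) {n : ℕ}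
    (hn : 0 < n) (hn' : (n : Ω) ≠ 0) {K : Type} [Field K] [Algebra Ω K] (x y w : K)
    (hK : adjoin Ω {x, y, w} = ⊤) (hw0 : w ≠ 0) (hw : w ^ n ∈ adjoin Ω {x, y})
    (hdeg : Module.finrank (adjoin Ω {x, y}) K = n)
    (huni : ∀ (N : Type) [Field N] [Algebra Ω N] (g : K →ₐ[Ω] N) (v s : N),
      Transcendental g.fieldRange v → v ^ 1 * (1 - v) ^ 1 = s ^ n * g w ^ n →
      Uniruled Ω (adjoin Ω {g x, g y, v, s} : IntermediateField Ω N) 3)
    (hD : ∀ m : ℕ, n = 2 * m → NoTate T (adjoin Ω {x, y, w ^ m} : IntermediateField Ω K)) :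
    NoTate T K := by
  classical
  intro U₀ hU₀ γ hγ₀ t ht₀
  by_contra h0
  obtain ⟨U, hUU, hU, hfix⟩ := fixed_open_set {a : K | ∀ τ ∈ U₀, γ τ a = a} U₀ hU₀ γ hγ₀.1
    (fun τ hτ s hs => hs τ hτ) {x, y, w} (fun k _ => by
      rw [hγ₀.2]; exact mem_top)
  simp only [Finset.mem_insert, Finset.mem_singleton, forall_eq_or_imp, forall_eq] at hfix
  have hγ : ∀ τ ∈ U, IsOver (τ : Ω ≃+* Ω) (γ τ) := fun τ hτ => hγ₀.1 τ (hUU hτ)
  have ht : ∀ τ ∈ U, T.act 2 (γ τ) t = ((T.cyc τ)⁻¹ : Lˣ) • t := fun τ hτ => ht₀ τ (hUU hτ)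
  have hfin : (⊤ : IntermediateField Ω K).FG := by
    rw [← hK]
    exact fg_adjoin_of_finite (Set.toFinite _)
  have : FiniteDimensional L (T.H 2 K) := T.fin 2 K hfin
  have : NeZero (n : Ω) := ⟨hn'⟩
  obtain ⟨ζ, hζ⟩ : ∃ ζ : Ω, IsPrimitiveRoot ζ n :=
    HasEnoughRootsOfUnity.exists_primitiveRoot Ω n
  obtain ⟨σ, hσ⟩ := kummer_sigma hn hn' hζ.pow_eq_one x y w hK hw hdeg
  have hζF : IsIntegral F ζ := by
    refine ⟨Polynomial.X ^ n - Polynomial.C 1, Polynomial.monic_X_pow_sub_C _ hn.ne', ?_⟩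
    rw [Polynomial.eval₂_sub, Polynomial.eval₂_pow, Polynomial.eval₂_X, Polynomial.eval₂_C,
      hζ.pow_eq_one, map_one, sub_self]
  obtain ⟨V, hVU, hV, hVζ⟩ := exists_open U hU ζ hζF
  have hcomm : ∀ (τ : V) (r : T.H 2 K),
      T.act 2 (γ τ) (T.map 2 σ r) = T.map 2 σ (T.act 2 (γ τ) r) := by
    intro τ r
    have hτ := hVU τ.2
    refine T.act_comm 2 {x, y, w} hK (τ : Ω ≃+* Ω) (γ τ) (hγ τ hτ) σ ?_ r
    obtain ⟨h1, h2, h3⟩ := hfix τ hτ
    rintro s (rfl | rfl | rfl)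
    · rw [hσ.1, h1, hσ.1]
    · rw [hσ.2.1, h2, hσ.2.1]
    · rw [hσ.2.2, map_mul, hγ τ hτ, h3, hσ.2.2]
      congr 2
      exact hVζ τ τ.2
  obtain ⟨s, ξ, hs0, hs, hξs⟩ := exists_eigen (fun τ : V => T.act 2 (γ τ))
    (fun τ : V => (((T.cyc τ)⁻¹ : Lˣ) : L)) (T.map 2 σ) hcomm t
    (fun τ => ht τ (hVU τ.2)) h0
  have hξn : ξ ^ n = 1 := by
    have h1 : ∀ j : ℕ, (T.map 2 σ ^ j : Module.End L (T.H 2 K)) s = ξ ^ j • s := by
      intro j
      induction j with
      | zero => simp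
      | succ j ih =>
        rw [pow_succ, Module.End.mul_apply, hξs, map_smul, ih, smul_smul, pow_succ, mul_comm]
    have h2 := h1 n
    rw [← tmap_pow75, sigma_order75 hζ.pow_eq_one x y w hK σ hσ] at h2
    have h3 : T.map 2 (1 : K →ₐ[Ω] K) s = s := LinearMap.congr_fun (T.map_id 2 K) s
    rw [h3] at h2
    have h4 : (ξ ^ n - 1) • s = 0 := by
      rw [sub_smul, ← h2, one_smul, sub_self]
    exact sub_eq_zero.1 ((smul_eq_zero.1 h4).resolve_right hs0)
  have hform : IsForm V γ := by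
    refine isForm_of_gens (fun τ hτ => hγ τ (hVU hτ)) {x, y, w} hK fun τ hτ k hk => ?_
    obtain ⟨h1, h2, h3⟩ := hfix τ (hVU hτ)
    rcases hk with rfl | rfl | rfl
    · exact h1
    · exact h2
    · exact h3
  have halgF : ∀ k : K, k ∈ Acl Ω {x, y} := by
    intro k
    have : FiniteDimensional (adjoin Ω {x, y}) K :=
      Module.finite_of_finrank_pos (by rw [hdeg]; exact hn)
    exact Algebra.IsAlgebraic.isAlgebraic k
  by_cases hξ2 : ξ ^ 2 = 1
  · have hσF : ∀ k ∈ adjoin Ω {x, y}, σ k = k := by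
      intro k hk
      exact fix_adjoin σ {x, y} (by
        rintro c (rfl | rfl)
        · exact hσ.1
        · exact hσ.2.1) hk
    rcases Pool.Agent.Helper15.QM.desc_two T.toBaseTheory hn hn' hζ x y w hK hw0 hw σ
      ⟨hσF, hσ.2.2⟩ ξ hξn hξ2 s hξs with h | ⟨m, hm, s', hs'⟩
    · exact hs0 h
    · refine hs0 (zero_of_range T (Pool.Agent.Helper75.WC.fg_sub (Set.toFinite _)) (hD m hm) _ ?_ V
        hV γ hform s (fun τ hτ => hs ⟨τ, hτ⟩) s' hs')
      intro k
      rw [fieldRange_val]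
      have h1 : adjoin Ω {x, y} ≤ adjoin Ω {x, y, w ^ m} := by
        rw [adjoin_le_iff]
        rintro c (rfl | rfl)
        · exact subset_adjoin _ _ (by simp)
        · exact subset_adjoin _ _ (by simp)
      have h2 : IsAlgebraic (adjoin Ω {x, y}) k := halgF k
      let _ : Algebra (adjoin Ω {x, y}) (adjoin Ω {x, y, w ^ m}) :=
        (inclusion h1).toRingHom.toAlgebra
      have : IsScalarTower (adjoin Ω {x, y}) (adjoin Ω {x, y, w ^ m}) K :=
        .of_algebraMap_eq fun _ => rfl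
      exact h2.tower_top _
  have hξ0 : ξ ≠ 0 := by
    rintro rfl
    rw [zero_pow hn.ne'] at hξn
    exact zero_ne_one hξn
  have hξ1 : ξ ^ 1 ≠ 1 := by
    intro h
    apply hξ2
    rw [pow_one] at h
    rw [h, one_pow]
  obtain ⟨C, N, iC, jC, iN, jN, v, u, a, b, hv, hu, hC, hbv, hN, hsig, -, hpsi⟩ :=
    exists_curve_ab (Ω := Ω) (α := 1) (β := 1) hn (by simp) K
  obtain ⟨σ', hσ'⟩ := hsig ζ hζ.pow_eq_one
  choose γ' hγ' using fun τ : Ω ≃ₐ[F] Ω => hpsi (τ : Ω ≃+* Ω)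
  have hfinC : (⊤ : IntermediateField Ω C).FG := by
    rw [← hC]
    exact fg_adjoin_of_finite (Set.toFinite _)
  obtain ⟨z, hz0, hz⟩ := T.curve C n 1 1 ζ v u σ' hn' hζ hv hu hC hσ'.1 hσ'.2 ξ⁻¹
    (by rw [inv_pow, hξn, inv_one]) (by
      intro h
      rw [inv_pow, inv_eq_one] at h
      exact hξ1 h) (by
      intro h
      rw [inv_pow, inv_eq_one] at h
      exact hξ1 h) (by
      intro h
      rw [inv_pow, inv_eq_one] at h
      exact hξ2 h)
  have huni' : ∀ z : T.H 3 (adjoin Ω {a x, a y, b v, b u / a w} : IntermediateField Ω N), z = 0 := by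
    apply T.uniruled
    refine huni N a (b v) (b u / a w) hbv ?_
    have h2 : b u ^ n = b v ^ 1 * (1 - b v) ^ 1 := by
      rw [← map_pow, hu, map_mul, map_pow, map_pow, map_sub, map_one]
    have h3 : a w ≠ 0 := fun h => hw0 (a.injective (h.trans (map_zero a).symm))
    rw [div_pow, h2, div_mul_cancel₀ _ (pow_ne_zero _ h3)]
  refine hs0 (T.eq_zero_of_cup a b x y v V γ γ' hfin hfinC halgF ?_ hbv hV hform ?_ s
    (fun τ hτ => hs ⟨τ, hτ⟩) z hz0 ?_)
  · intro k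
    rw [← mem_AF]
    have h1 : adjoin Ω {v, u} ≤ AF Ω {v} := by
      rw [adjoin_le_iff]
      have hvm : v ∈ AF Ω {v} := subset_AF _ (by simp)
      rintro k (rfl | rfl)
      · exact hvm
      · apply AF_root hn
        rw [hu]
        exact mul_mem (pow_mem hvm _) (pow_mem (sub_mem (one_mem _) hvm) _)
    apply h1
    rw [hC]
    exact mem_top
  · refine isForm_of_gens (fun τ _ => (hγ' τ).1) {v, u} hC fun τ _ k hk => ?_
    rcases hk with rfl | rfl
    · exact (hγ' τ).2.1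
    · exact (hγ' τ).2.2
  · exact cross_zero T.toBaseTheory hn hn' hζ a b x y w v u hK hC hN hw0 hw σ hσ σ' hσ' huni'
      ξ hξ0 s hξs z hz

end Pool.Agent.Helper35.WC
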